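import Mathlib
import Pool.Agent.H22.BcastDefs
import Pool.Agent.H22.BcastEx

set_option autoImplicit false

namespace Pool.Agent.Results.MP_20154b_co.Counter
open Pool.Agent.H22 Pool.Agent.H22.Bcast

theorem result : ∃ G : SimpleGraph (Fin 12), G.Connected ∧
    (∀ v, (G.induce ({v}ᶜ : Set (Fin 12))).Connected) ∧ upperB G < alphaBnr G := by
  refine ⟨gd BcastEx.D12, gd_conn BcastEx.ok12 (by norm_num), BcastEx.two12, ?_⟩
  have h1 := BcastEx.up12
  have h2 := BcastEx.lo12
  omega

end Pool.Agent.Results.MP_20154b_co.Counter
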